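import Pool.Agent.H.MP_8b4e11_lc.Defs
import Pool.Agent.Lib.helper25.RelGr

namespace Pool.Agent.H.MP_8b4e11_lc

open Pool.Agent.Lib.CX Finset

variable {V : Type} [Fintype V]

theorem of_lev (A : V → V → Prop) (f : V → ℕ)
    (h : ∀ x y z, f x ≤ f y → f y ≤ f z → x ≠ y → y ≠ z → (A x y → A y z → A x z) ∧ (A z y → A y x → A z x)) :
    Comp A := by
  let e := fun x => (Fintype.equivFin V x).1
  have he : ∀ x y, e x = e y → x = y := fun x y h => (Fintype.equivFin V).injective (Fin.ext h)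
  refine ⟨fun x y => f x < f y ∨ (f x = f y ∧ e x < e y), ?_, fun x y z a b => h x y z (by omega) (by omega)
    (by rintro rfl; omega) (by rintro rfl; omega)⟩
  exact { trichotomous := fun x y a b => he x y (by omega), irrefl := fun x => by omega
          trans := fun x y z a b => by omega }

theorem to_rank {A : V → V → Prop} (h : Comp A) : ∃ f : V → ℕ, (∀ x, f x < Fintype.card V) ∧ Function.Injective f ∧
    ∀ x y z, f x < f y → f y < f z → (A x y → A y z → A x z) ∧ (A z y → A y x → A z x) := by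
  classical
  obtain ⟨r, h1, h2⟩ := h
  have m : ∀ x y, r x y → (univ.filter (r · x)).card < (univ.filter (r · y)).card := fun x y e =>
    card_lt_card ⟨fun z hz => by simpa using _root_.trans (by simpa using hz) e, fun s => irrefl_of r x (by
      simpa using s (show x ∈ _ by simpa using e))⟩
  have m' : ∀ x y, (univ.filter (r · x)).card < (univ.filter (r · y)).card → r x y := fun x y e => by
    rcases trichotomous_of r x y with a | rfl | a
    · exact a
    · omega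
    · have := m _ _ a; omega
  refine ⟨fun x => (univ.filter (r · x)).card, fun x => card_lt_card ⟨subset_univ _, fun s => irrefl_of r x (by
    simpa using s (mem_univ x))⟩, fun x y e => ?_, fun x y z a b => h2 x y z (m' _ _ a) (m' _ _ b)⟩
  rcases trichotomous_of r x y with a | a | a
  · have := m _ _ a; simp only at e; omega
  · exact a
  · have := m _ _ a; simp only at e; omega

abbrev W := ℕ × T3 ℕ

def R (p q : W) : Prop :=
  (p.1 < 4 ∧ q.1 = p.1 + 1 ∧ p.2.1 = q.2.1) ∨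
    ((p.1 = 5 ∨ p.1 = 7) ∧ (q.1 = 6 ∨ q.1 = 8) ∧ p.2.1 = q.2.1 ∧ p.2.2.1 = q.2.2.1 ∧ p.2.2.2 = q.2.2.2) ∨
    ((p.1 = 6 ∨ p.1 = 7) ∧ q.1 = 0 ∧ q.2.1 = p.2.1) ∨ ((p.1 = 6 ∨ p.1 = 5) ∧ q.1 = 1 ∧ q.2.1 = p.2.2.1) ∨
    ((p.1 = 8 ∨ p.1 = 5) ∧ q.1 = 0 ∧ q.2.1 = p.2.2.2) ∨ ((p.1 = 8 ∨ p.1 = 7) ∧ q.1 = 3 ∧ q.2.1 = p.2.2.2)
instance (p q) : Decidable (R p q) := by unfold R; infer_instance
def vs (φ : List (T3 ℕ)) : List W :=
  List.range 5 ×ˢ (List.range (3 * φ.length)).map (fun x => (x, 0, 0)) ++ [5, 6, 7, 8] ×ˢ φ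
def gr (φ : List (T3 ℕ)) : Gr := relGr (vs φ) fun e => R e.1 e.2

theorem mem_vs {φ} {p : W} : p ∈ vs φ ↔
    (p.1 < 5 ∧ p.2.1 < 3 * φ.length ∧ p.2.2.1 = 0 ∧ p.2.2.2 = 0) ∨ (5 ≤ p.1 ∧ p.1 < 9 ∧ p.2 ∈ φ) := by
  obtain ⟨i, x, y, z⟩ := p
  rw [vs, List.mem_append]
  refine or_congr (List.pair_mem_product.trans ?_) (List.pair_mem_product.trans ?_)
  · simp [eq_comm]
  · simp only [List.mem_cons, List.not_mem_nil, or_false, ← and_assoc]
    exact and_congr_left fun _ => by omega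

def pos (a b c : Bool) (t : ℕ) : ℕ :=
  (if a then (if b then [4, 2, 1, 3] else if c then [2, 1, 4, 3] else [4, 1, 2, 3])
    else if b then (if c then [1, 4, 3, 2] else [3, 4, 1, 2]) else [1, 2, 4, 3]).getD (t - 5) 1

def lev (v : ℕ → Bool) (p : W) : ℕ :=
  if p.1 < 5 then (if v p.2.1 = decide (p.1 % 2 = 0) then 9 else 0) else pos (v p.2.1) (v p.2.2.1) (v p.2.2.2) p.1

theorem lev_ok (v : ℕ → Bool) (p q r : W) (h : 5 ≤ p.1 → nae (v p.2.1) (v p.2.2.1) (v p.2.2.2) = true)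
    (h1 : R p q) (h2 : R q r) (h3 : ¬R p r) :
    (lev v p < lev v q ∧ lev v r < lev v q) ∨ (lev v q < lev v p ∧ lev v q < lev v r) := by
  obtain ⟨i, a, b, c⟩ := p
  obtain ⟨j, a', b', c'⟩ := q
  obtain ⟨k, a'', b'', c''⟩ := r
  simp only [R] at h1 h2
  have h4 : (i < 3 ∧ j = i + 1 ∧ k = i + 2 ∧ a = a' ∧ a = a'') ∨
      (5 ≤ i ∧ i < 9 ∧ (j = 0 ∨ j = 1 ∨ j = 3) ∧ k = j + 1 ∧ a' = a'') ∨ ((a = a' ∧ b = b' ∧ c = c') ∧
      ((i = 5 ∧ j = 6 ∧ k = 0 ∧ a'' = a) ∨ (i = 7 ∧ j = 6 ∧ k = 1 ∧ a'' = b) ∨ (i = 7 ∧ j = 8 ∧ k = 0 ∧ a'' = c) ∨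
      (i = 5 ∧ j = 8 ∧ k = 3 ∧ a'' = c))) := by
    simp only [R, not_or] at h3
    obtain ⟨-, -, n1, n2, n3, n4⟩ := h3
    rcases h1 with h1 | h1 | h1
    · exact .inl (by clear n1 n2 n3 n4; omega)
    · refine .inr (.inr ⟨h1.2.2, ?_⟩)
      obtain ⟨h1, h3, rfl, rfl, rfl⟩ := h1
      rcases h2 with h2 | h2 | h2 | h2 | h2 | h2 <;> omega
    · clear n1 n2 n3 n4
      have : j < 4 := by omega
      have : k = j + 1 ∧ a' = a'' := by clear h1; omega
      clear h2
      exact .inr (.inl (by omega))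
  clear h1 h2 h3
  rcases h4 with ⟨h1, rfl, rfl, rfl, rfl⟩ | ⟨h1, h2, h3, rfl, rfl⟩ | ⟨⟨rfl, rfl, rfl⟩, h1⟩
  · cases e : v a <;> interval_cases i <;> simp [lev, e]
  · have : 0 < lev v (i, a, b, c) ∧ lev v (i, a, b, c) < 9 := by
      simp only [lev, h1.not_gt, if_false]
      generalize v a = x, v b = y, v c = z
      revert x y z
      interval_cases i <;> decide
    generalize lev v (i, a, b, c) = m at this
    rcases h3 with rfl | rfl | rfl <;> cases e : v a' <;> simp [lev, e, this]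
  · rcases h1 with ⟨rfl, rfl, rfl, rfl⟩ | ⟨rfl, rfl, rfl, rfl⟩ | ⟨rfl, rfl, rfl, rfl⟩ | ⟨rfl, rfl, rfl, rfl⟩ <;>
      simp [lev] at h ⊢ <;> revert h <;> generalize v _ = x <;>
      generalize v _ = y <;> generalize v _ = z <;> cases x <;> cases y <;> cases z <;> simp [pos, nae]

theorem main (φ : List (T3 ℕ)) (hφ : ∀ C ∈ φ, C.dist ∧ ∀ x ∈ C.vars, x < 3 * φ.length) (A : V → V → Prop) (g : V → W)
    (hg : Function.Injective g) (hT : ∀ p, p ∈ vs φ ↔ ∃ u, g u = p) (hA : ∀ u v, A u v ↔ R (g u) (g v)) :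
    SatR nae φ ↔ Comp A := by
  constructor
  · rintro ⟨v, hv⟩
    have : ∀ u, 5 ≤ (g u).1 → nae (v (g u).2.1) (v (g u).2.2.1) (v (g u).2.2.2) = true := fun u h =>
      hv _ ((mem_vs.1 ((hT _).2 ⟨u, rfl⟩)).resolve_left (by omega)).2.2
    refine of_lev A (fun u => lev v (g u)) fun x y z a b _ _ => ⟨fun c d => by_contra fun n => ?_,
      fun c d => by_contra fun n => ?_⟩ <;> rw [hA] at c d n
    · have := lev_ok v _ _ _ (this _) c d n; omega
    · have := lev_ok v _ _ _ (this _) c d n; omega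
  · intro h
    obtain ⟨f, -, h1, h2⟩ := to_rank h
    classical
    let F : W → ℕ := fun p => if e : ∃ u, g u = p then f e.choose else 0
    have hF : ∀ u, F (g u) = f u := fun u => by
      have e : ∃ w, g w = g u := ⟨u, rfl⟩
      simp only [F, dif_pos e]; rw [hg e.choose_spec]
    have nb : ∀ p ∈ vs φ, ∀ q ∈ vs φ, ∀ r ∈ vs φ, R p q → R q r → ¬R p r → p.1 ≠ q.1 → q.1 ≠ r.1 →
        (F p < F q ∧ F r < F q) ∨ (F q < F p ∧ F q < F r) := fun p hp q hq r hr => by
      obtain ⟨p, rfl⟩ := (hT p).1 hp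
      obtain ⟨q, rfl⟩ := (hT q).1 hq
      obtain ⟨r, rfl⟩ := (hT r).1 hr
      simp only [← hA, hF]
      intro a b c d e
      have n1 : f p ≠ f q := h1.ne (by rintro rfl; exact d rfl)
      have n2 : f q ≠ f r := h1.ne (by rintro rfl; exact e rfl)
      by_contra n
      rcases (by omega : (f p < f q ∧ f q < f r) ∨ (f r < f q ∧ f q < f p)) with k | k
      · exact c ((h2 _ _ _ k.1 k.2).1 a b)
      · exact c ((h2 _ _ _ k.1 k.2).2 a b)
    refine ⟨fun x => decide (F (1, x, 0, 0) < F (0, x, 0, 0)), fun C hC => ?_⟩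
    obtain ⟨a, b, c⟩ := C
    obtain ⟨⟨d1, d2, d3⟩, l⟩ := hφ _ hC
    simp only [T3.vars, List.forall_mem_cons] at l d1 d2 d3
    have w : ∀ i x, i < 5 → x = a ∨ x = b ∨ x = c → (i, x, 0, 0) ∈ vs φ := fun i x h1 h2 =>
      mem_vs.2 (.inl ⟨h1, by simp only; omega, rfl, rfl⟩)
    have k : ∀ i, 5 ≤ i → i < 9 → (i, a, b, c) ∈ vs φ := fun i h1 h2 => mem_vs.2 (.inr ⟨h1, h2, hC⟩)
    have pa : ∀ i x, i < 3 → x = a ∨ x = b ∨ x = c → _ := fun i x h1 h2 =>
      nb _ (w i x (by omega) h2) _ (w (i + 1) x (by omega) h2) _ (w (i + 2) x (by omega) h2)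
        (by simp [R]; omega) (by simp [R]; omega) (by simp [R]; omega) (by simp) (by simp)
    have l1 : ∀ t i x, 5 ≤ t → t < 9 → i < 4 → x = a ∨ x = b ∨ x = c → R (t, a, b, c) (i, x, 0, 0) →
        ¬R (t, a, b, c) (i + 1, x, 0, 0) → _ := fun t i x h1 h2 h3 h4 h5 h6 =>
      nb _ (k t h1 h2) _ (w i x (by omega) h4) _ (w (i + 1) x (by omega) h4) h5 (by simp [R]; omega) h6
        (by simp; omega) (by simp)
    have l2 : ∀ s t i x, s = 5 ∨ s = 7 → t = 6 ∨ t = 8 → i < 5 → x = a ∨ x = b ∨ x = c → R (t, a, b, c) (i, x, 0, 0) →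
        ¬R (s, a, b, c) (i, x, 0, 0) → _ := fun s t i x h1 h2 h3 h4 h5 h6 =>
      nb _ (k s (by omega) (by omega)) _ (k t (by omega) (by omega)) _ (w i x h3 h4) (by simp [R]; omega) h5 h6
        (by simp; omega) (by simp; omega)
    have p1 := pa 0 b (by simp) (by simp)
    have p2 := pa 0 c (by simp) (by simp)
    have p3 := pa 1 c (by simp) (by simp)
    have p4 := pa 2 c (by simp) (by simp)
    have q1 := l1 6 0 a (by simp) (by simp) (by simp) (by simp) (by simp [R]) (by simp [R, d1])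
    have q2 := l1 6 1 b (by simp) (by simp) (by simp) (by simp) (by simp [R]) (by simp [R])
    have q3 := l1 8 0 c (by simp) (by simp) (by simp) (by simp) (by simp [R]) (by simp [R])
    have q4 := l1 8 3 c (by simp) (by simp) (by simp) (by simp) (by simp [R]) (by simp [R])
    have r1 := l2 5 6 0 a (by simp) (by simp) (by simp) (by simp) (by simp [R]) (by simp [R, d2])
    have r2 := l2 7 6 1 b (by simp) (by simp) (by simp) (by simp) (by simp [R]) (by simp [R])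
    have r3 := l2 7 8 0 c (by simp) (by simp) (by simp) (by simp) (by simp [R]) (by simp [R, Ne.symm d2])
    have r4 := l2 5 8 3 c (by simp) (by simp) (by simp) (by simp) (by simp [R]) (by simp [R])
    simp only [nae, Bool.not_eq_true', Bool.and_eq_false_iff, beq_eq_false_iff_ne, ne_eq, decide_eq_decide,
      Nat.reduceAdd] at *
    omega

set_option synthInstance.maxSize 2000 in
theorem hard : NPHard fun a : Gr => Comp a.arc :=
  NPHard.of_nae gr (by unfold gr relGr vs R; fun_prop) fun φ hφ => main φ hφ _ (relNm _ _) (relNm_inj _ _)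
    (relNm_range _ _) fun u v => (relGr_arc _ _ u v).trans decide_eq_true_iff

def chk (a : Gr) (f : List ℕ) : Prop :=
  (∀ x ∈ List.range a.n, ∀ y ∈ List.range a.n, f.getD x 0 = f.getD y 0 → x = y) ∧
    ∀ x ∈ List.range a.n, ∀ y ∈ List.range a.n, ∀ z ∈ List.range a.n,
    f.getD x 0 < f.getD y 0 → f.getD y 0 < f.getD z 0 →
      ((x, y) ∈ a.2 → (y, z) ∈ a.2 → (x, z) ∈ a.2) ∧ ((z, y) ∈ a.2 → (y, x) ∈ a.2 → (z, x) ∈ a.2)
set_option synthInstance.maxSize 2000 in
instance (a S) : Decidable (chk a S) := by unfold chk; infer_instance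

set_option synthInstance.maxSize 2000 in
theorem inNP : InNP fun a : Gr => Comp a.arc := by
  refine InNP.of_cert' chk (fun a => a.n * (3 * a.n + 3) + 2) (by unfold chk; fun_prop) (by fun_prop) ?_ fun a h => ?_
  · rintro a f ⟨h1, h2⟩
    simp only [List.mem_range] at h1 h2
    exact of_lev _ (fun x => f.getD x 0) fun x y z p q r s => h2 x x.2 y y.2 z z.2
      (p.lt_of_ne fun e => r (Fin.ext (h1 x x.2 y y.2 e))) (q.lt_of_ne fun e => s (Fin.ext (h1 y y.2 z z.2 e)))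
  · obtain ⟨f, h1, h2, h3⟩ := to_rank h
    have e : ∀ x (h : x < a.n), (List.ofFn f).getD x 0 = f ⟨x, h⟩ := fun x h => by simp [h]
    refine ⟨List.ofFn f, (size_list_le (B := 3 * a.n + 2) fun x hx => (size_nat_le x).trans ?_).trans (by simp),
      fun x hx y hy => ?_, fun x hx y hy z hz => ?_⟩
    · obtain ⟨i, rfl⟩ := (List.mem_ofFn' _ _).1 hx
      have := h1 i
      simp only [Fintype.card_fin] at this
      omega
    · rw [e x (List.mem_range.1 hx), e y (List.mem_range.1 hy)]; exact fun k => congrArg Fin.val (h2 k)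
    · rw [e x (List.mem_range.1 hx), e y (List.mem_range.1 hy), e z (List.mem_range.1 hz)]; exact h3 _ _ _

end Pool.Agent.H.MP_8b4e11_lc
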