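import Pool.Agent.Lib.lead.CXGraph

namespace Pool.Agent.H.MP_8b4e11_lc

/-- the digraph with arc relation `A` has a comparability ordering -/
def Comp {V : Type} (A : V → V → Prop) : Prop :=
  ∃ r : V → V → Prop, IsStrictTotalOrder V r ∧
    ∀ x y z, r x y → r y z → (A x y → A y z → A x z) ∧ (A z y → A y x → A z x)

end Pool.Agent.H.MP_8b4e11_lc
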